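import Mathlib
import Pool.Agent.MP_f32cb9_nt.UW.A14

/-!
A partial answer to the question on `k`-good numbers (`τ(n - j) ≤ j + 2` for all `1 ≤ j < k`),
uniform in `k`: all bounds hold for all `1 ≤ j < n`.

Write `a = e log 2 = 1.884...`.

1. Weights: for every weight `c` on the positive integers of total mass at most `1` and with
   `c j ≤ j ^ (-η)`, there are at least `N ^ 0.99` integers `n ≤ N` with
   `τ(n - j) * (c j) ^ (a + ε) ≤ C τ(j)` for all `1 ≤ j < n`, which in addition satisfy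
   `Fine C ε n`; the constant `C` depends on `ε` and `η` only.
2. Sparse sets: for every set `S` with `#(S ∩ [1, y]) ≤ B y ^ σ` there are at least `N ^ 0.99`
   integers `n ≤ N` with `τ(n - j) ≤ C j ^ (σ a + ε)` for all `j ∈ S`, `j < n`, and `Fine C ε n`;
   the constant `C` depends on `ε`, `σ` and `B` only.
3. If `σ a < 1`, that is `σ < 0.5307...`, there is a `C` depending on `σ` and `B` only such that
   for at least `N ^ 0.99` integers `n ≤ N` the numbers `m = n - j`, `j ∈ S`, satisfy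
   `m + τ(m) ≤ n + C`, and even `m + τ(m) ≤ n` when `j ≥ C`.

The proof is a sieve of Brun's type over `n = M t`, where the sieving level for the prime factors of
`n - j` depends on `j` through the weight; blocks of primes shrink dyadically, so the total level
stays below a fixed power of `n`. For the `j` beyond the sieved range the first moment of
`τ(n - j)` over the sifted set is used.
-/

set_option autoImplicit false

namespace Pool.Agent.Results.MP_f32cb9_nt.UniformWindows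

/-- The bounds valid for all `j < n`: a pointwise bound for `τ (n - j)`, a bound for the number of
exceptions to `τ (n - j) ≤ j` on every initial window, and a bound for the sum of `τ (n - j)` on
every initial window. -/
def Fine (C ε : ℝ) (n : ℕ) : Prop :=
  (∀ j : ℕ, 1 ≤ j → j < n →
    ((n - j).divisors.card : ℝ) ≤ C * (j : ℝ) ^ (Real.exp 1 * Real.log 2 + ε)) ∧
  (∀ y : ℕ, 1 ≤ y → y ≤ n →
    (((Finset.Ico 1 y).filter (fun j => j < (n - j).divisors.card)).card : ℝ) ≤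
      C * (y : ℝ) ^ ((1 + Real.log (Real.log 2)) / Real.log 2 + ε)) ∧
  (∀ y : ℕ, 1 ≤ y → y ≤ n →
    ∑ j ∈ Finset.Ico 1 y, ((n - j).divisors.card : ℝ) ≤ C * (y : ℝ) ^ (2 + ε))

theorem result :
    (∀ ε η : ℝ, 0 < ε → 0 < η → ∃ (C : ℝ) (N₀ : ℕ), ∀ c : ℕ → ℝ,
      (∀ j : ℕ, 1 ≤ j → 0 ≤ c j ∧ c j ≤ (j : ℝ) ^ (-η)) →
      (∀ s : Finset ℕ, (∀ j ∈ s, 1 ≤ j) → ∑ j ∈ s, c j ≤ 1) →
      ∀ N : ℕ, N₀ ≤ N → (N : ℝ) ^ (99 / 100 : ℝ) ≤
        ({n : ℕ | n ≤ N ∧ Fine C ε n ∧ ∀ j : ℕ, 1 ≤ j → j < n →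
          (c j) ^ (Real.exp 1 * Real.log 2 + ε) * ((n - j).divisors.card : ℝ) ≤
            C * (j.divisors.card : ℝ)}.ncard : ℝ)) ∧
    (∀ ε σ B : ℝ, 0 < ε → 0 ≤ σ → σ ≤ 1 → ∃ (C : ℝ) (N₀ : ℕ), ∀ S : Set ℕ,
      (∀ y : ℕ, 1 ≤ y → ({j : ℕ | j ∈ S ∧ 1 ≤ j ∧ j ≤ y}.ncard : ℝ) ≤ B * (y : ℝ) ^ σ) →
      ∀ N : ℕ, N₀ ≤ N → (N : ℝ) ^ (99 / 100 : ℝ) ≤
        ({n : ℕ | n ≤ N ∧ Fine C ε n ∧ ∀ j ∈ S, 1 ≤ j → j < n →
          ((n - j).divisors.card : ℝ) ≤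
            C * (j : ℝ) ^ (σ * (Real.exp 1 * Real.log 2) + ε)}.ncard : ℝ)) ∧
    (∀ σ B : ℝ, 0 ≤ σ → σ * (Real.exp 1 * Real.log 2) < 1 → ∃ C N₀ : ℕ, ∀ S : Set ℕ,
      (∀ y : ℕ, 1 ≤ y → ({j : ℕ | j ∈ S ∧ 1 ≤ j ∧ j ≤ y}.ncard : ℝ) ≤ B * (y : ℝ) ^ σ) →
      ∀ N : ℕ, N₀ ≤ N → (N : ℝ) ^ (99 / 100 : ℝ) ≤
        ({n : ℕ | n ≤ N ∧ ∀ j ∈ S, 1 ≤ j → j < n →
          (n - j) + (n - j).divisors.card ≤ n + C ∧
            (C ≤ j → (n - j) + (n - j).divisors.card ≤ n)}.ncard : ℝ)) := by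
  refine ⟨fun ε η hε hη => ?_, fun ε σ B hε hσ hσ1 => ?_, fun σ B hσ hσ1 => ?_⟩
  · obtain ⟨C, -, N₀, h⟩ := Pool.Agent.MP_f32cb9_nt.UW.weights hε hη
    refine ⟨C, N₀, fun c hc1 hc2 N hN => (h c hc1 hc2 N hN).trans ?_⟩
    have hsub := Set.ncard_le_ncard (s := {n : ℕ | n ≤ N ∧ ((∀ j : ℕ, 1 ≤ j → j < n →
          (c j) ^ (Real.exp 1 * Real.log 2 + ε) * ((n - j).divisors.card : ℝ) ≤
            C * j.divisors.card) ∧ Pool.Agent.MP_f32cb9_nt.UW.Fine C ε n)})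
      (t := {n : ℕ | n ≤ N ∧ Fine C ε n ∧ ∀ j : ℕ, 1 ≤ j → j < n →
          (c j) ^ (Real.exp 1 * Real.log 2 + ε) * ((n - j).divisors.card : ℝ) ≤
            C * (j.divisors.card : ℝ)}) (fun n hn => ⟨hn.1, hn.2.2, hn.2.1⟩)
      ((Set.finite_Iic N).subset fun n hn => hn.1)
    exact_mod_cast hsub
  · obtain ⟨C, -, N₀, h⟩ := Pool.Agent.MP_f32cb9_nt.UW.sparse B hε hσ hσ1
    refine ⟨C, N₀, fun S hS N hN => (h S hS N hN).trans ?_⟩
    have hsub := Set.ncard_le_ncard (s := {n : ℕ | n ≤ N ∧ ((∀ j ∈ S, 1 ≤ j → j < n →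
          ((n - j).divisors.card : ℝ) ≤ C * (j : ℝ) ^ (σ * (Real.exp 1 * Real.log 2) + ε)) ∧
            Pool.Agent.MP_f32cb9_nt.UW.Fine C ε n)})
      (t := {n : ℕ | n ≤ N ∧ Fine C ε n ∧ ∀ j ∈ S, 1 ≤ j → j < n →
          ((n - j).divisors.card : ℝ) ≤
            C * (j : ℝ) ^ (σ * (Real.exp 1 * Real.log 2) + ε)})
      (fun n hn => ⟨hn.1, hn.2.2, hn.2.1⟩)
      ((Set.finite_Iic N).subset fun n hn => hn.1)
    exact_mod_cast hsub
  · obtain ⟨C, N₀, h⟩ := Pool.Agent.MP_f32cb9_nt.UW.sparse_good B hσ hσ1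
    refine ⟨C, N₀, fun S hS N hN => (h S hS N hN).trans ?_⟩
    have hsub := Set.ncard_le_ncard (s := {n : ℕ | n ≤ N ∧ (∀ j ∈ S, 1 ≤ j → j < n →
          (n - j).divisors.card ≤ j + C ∧ (C ≤ j → (n - j).divisors.card ≤ j))})
      (t := {n : ℕ | n ≤ N ∧ ∀ j ∈ S, 1 ≤ j → j < n →
          (n - j) + (n - j).divisors.card ≤ n + C ∧
            (C ≤ j → (n - j) + (n - j).divisors.card ≤ n)})
      (fun n hn => ⟨hn.1, fun j hjS hj hjn => by
        obtain ⟨h1, h2⟩ := hn.2 j hjS hj hjn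
        exact ⟨by omega, fun h3 => by have := h2 h3; omega⟩⟩)
      ((Set.finite_Iic N).subset fun n hn => hn.1)
    exact_mod_cast hsub

end Pool.Agent.Results.MP_f32cb9_nt.UniformWindows
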